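import Pool.Agent.H65.CF.T6

/-!
# The product of the local kernels as a sum over lattices (MP_347b49_nt, row KPR)
-/

set_option autoImplicit false

namespace Pool.Agent.H72.CFH.KPR

open Pool.Agent.H31.CN Pool.Agent.H65.AD Pool.Agent.H91.CF Pool.Agent.H65.CF

/-- the polynomial of the form -/
def qz (R : Type) [CommRing R] (Q : QF) (z : R) : R :=
  (Q.1 : R) * z ^ 2 + (Q.2.1 : R) * z + (Q.2.2 : R)

/-- the solutions modulo `q` -/
def CT (q : ℕ) (Q : QF) (x y : ℤ) : Type :=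
  {z : ZMod q // IsUnit (qz (ZMod q) Q z) ∧ (x : ZMod q) - z * (y : ZMod q) = 0}

open Classical in
/-- the number of solutions -/
noncomputable def cn (q : ℕ) (Q : QF) (x y : ℤ) : ℕ :=
  ((Finset.range q).filter (fun j : ℕ =>
    IsCoprime (val Q ((j : ℤ), 1)) (q : ℤ) ∧ (q : ℤ) ∣ x - j * y)).card

theorem key1 (q : ℕ) (Q : QF) (j : ℕ) :
    ((val Q ((j : ℤ), 1) : ℤ) : ZMod q) = qz (ZMod q) Q (j : ZMod q) := by
  unfold val qz
  push_cast
  ring

theorem key2 (q : ℕ) (Q : QF) (j : ℕ) :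
    IsCoprime (val Q ((j : ℤ), 1)) (q : ℤ) ↔ IsUnit (qz (ZMod q) Q (j : ZMod q)) := by
  rw [← key1, ZMod.coe_int_isUnit_iff_isCoprime]
  exact isCoprime_comm

theorem key3 (q : ℕ) (x y : ℤ) (j : ℕ) :
    (q : ℤ) ∣ x - j * y ↔ (x : ZMod q) - (j : ZMod q) * (y : ZMod q) = 0 := by
  rw [← ZMod.intCast_zmod_eq_zero_iff_dvd]
  push_cast
  rfl

theorem cn_eq (q : ℕ) (hq : q ≠ 0) (Q : QF) (x y : ℤ) : cn q Q x y = Nat.card (CT q Q x y) := by
  classical
  have : NeZero q := ⟨hq⟩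
  unfold cn
  rw [← Nat.card_eq_finsetCard]
  refine Nat.card_congr
    { toFun := fun j => ⟨((j : ℕ) : ZMod q), ?_⟩
      invFun := fun z => ⟨z.1.val, Finset.mem_filter.2 ⟨Finset.mem_range.2 (ZMod.val_lt _), ?_⟩⟩
      left_inv := fun j => ?_
      right_inv := fun z => ?_ }
  · have h := (Finset.mem_filter.1 j.2).2
    exact ⟨(key2 q Q _).1 h.1, (key3 q x y _).1 h.2⟩
  · rw [key2, key3, ZMod.natCast_zmod_val]
    exact z.2
  · refine Subtype.ext ?_
    exact ZMod.val_cast_of_lt (Finset.mem_range.1 (Finset.mem_filter.1 j.2).1)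
  · exact Subtype.ext (ZMod.natCast_zmod_val _)

theorem map_qz {R S : Type} [CommRing R] [CommRing S] (e : R →+* S) (Q : QF) (z : R) :
    e (qz R Q z) = qz S Q (e z) := by
  unfold qz
  rw [map_add, map_add, map_mul, map_mul, map_pow, map_intCast, map_intCast, map_intCast]

theorem cn_mul (a b : ℕ) (ha : a ≠ 0) (hb : b ≠ 0) (hab : a.Coprime b) (Q : QF) (x y : ℤ) :
    cn (a * b) Q x y = cn a Q x y * cn b Q x y := by
  rw [cn_eq _ (mul_ne_zero ha hb), cn_eq a ha, cn_eq b hb, ← Nat.card_prod]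
  let e := ZMod.chineseRemainder hab
  refine Nat.card_congr ((e.toEquiv.subtypeEquiv (q := fun y' : ZMod a × ZMod b =>
    (IsUnit (qz (ZMod a) Q y'.1) ∧ (x : ZMod a) - y'.1 * (y : ZMod a) = 0) ∧
    (IsUnit (qz (ZMod b) Q y'.2) ∧ (x : ZMod b) - y'.2 * (y : ZMod b) = 0)) fun z => ?_).trans
    (Equiv.subtypeProdEquivProd (p := fun z : ZMod a =>
      IsUnit (qz (ZMod a) Q z) ∧ (x : ZMod a) - z * (y : ZMod a) = 0)
      (q := fun z : ZMod b => IsUnit (qz (ZMod b) Q z) ∧ (x : ZMod b) - z * (y : ZMod b) = 0)))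
  have h1 : IsUnit (qz (ZMod (a * b)) Q z) ↔
      IsUnit (qz (ZMod a) Q (e z).1) ∧ IsUnit (qz (ZMod b) Q (e z).2) := by
    rw [← MulEquiv.isUnit_map e.toMulEquiv, Prod.isUnit_iff]
    have h2 : (e.toMulEquiv (qz (ZMod (a * b)) Q z)) = qz (ZMod a × ZMod b) Q (e z) :=
      map_qz (e : ZMod (a * b) →+* ZMod a × ZMod b) Q z
    rw [h2]
    rfl
  have h2 : (x : ZMod (a * b)) - z * (y : ZMod (a * b)) = 0 ↔
      (x : ZMod a) - (e z).1 * (y : ZMod a) = 0 ∧ (x : ZMod b) - (e z).2 * (y : ZMod b) = 0 := by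
    rw [← map_eq_zero_iff e e.injective, map_sub, map_mul, map_intCast, map_intCast,
      Prod.ext_iff]
    rfl
  rw [h1, h2]
  constructor
  · rintro ⟨⟨p1, p2⟩, p3, p4⟩
    exact ⟨⟨p1, p3⟩, p2, p4⟩
  · rintro ⟨⟨p1, p3⟩, p2, p4⟩
    exact ⟨⟨p1, p2⟩, p3, p4⟩

theorem cn_one (Q : QF) (x y : ℤ) : cn 1 Q x y = 1 := by
  classical
  simp [cn, isCoprime_one_right]

theorem cn_prod (s : Finset ℕ) (hs : ∀ p ∈ s, p.Prime) (Q : QF) (x y : ℤ) :
    cn (∏ p ∈ s, p) Q x y = ∏ p ∈ s, cn p Q x y := by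
  induction s using Finset.induction_on with
  | empty => simp [cn_one]
  | insert p s hp ih =>
    rw [Finset.prod_insert hp, Finset.prod_insert hp, cn_mul, ih fun q hq =>
      hs q (Finset.mem_insert_of_mem hq)]
    · exact (hs p (Finset.mem_insert_self _ _)).ne_zero
    · exact Finset.prod_ne_zero_iff.2 fun q hq => (hs q (Finset.mem_insert_of_mem hq)).ne_zero
    · refine Nat.Coprime.prod_right fun q hq => ?_
      rw [Nat.coprime_primes (hs p (Finset.mem_insert_self _ _))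
        (hs q (Finset.mem_insert_of_mem hq))]
      rintro rfl
      exact hp hq

open Classical in
theorem npc (p : ℕ) (hp : p ≠ 0) (Q : QF) :
    ((Finset.range p).filter (fun j : ℕ => ¬ (p : ℤ) ∣ val Q ((j : ℤ), 1))).card =
      Nat.card {z : ZMod p // ¬ qz (ZMod p) Q z = 0} := by
  have : NeZero p := ⟨hp⟩
  have key : ∀ j : ℕ, (p : ℤ) ∣ val Q ((j : ℤ), 1) ↔ qz (ZMod p) Q (j : ZMod p) = 0 := by
    intro j
    rw [← key1, ZMod.intCast_zmod_eq_zero_iff_dvd]
  rw [← Nat.card_eq_finsetCard]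
  refine Nat.card_congr
    { toFun := fun j => ⟨((j : ℕ) : ZMod p), ?_⟩
      invFun := fun z => ⟨z.1.val, Finset.mem_filter.2 ⟨Finset.mem_range.2 (ZMod.val_lt _), ?_⟩⟩
      left_inv := fun j => ?_
      right_inv := fun z => ?_ }
  · have h := (Finset.mem_filter.1 j.2).2
    rw [key] at h
    exact h
  · rw [key, ZMod.natCast_zmod_val]
    exact z.2
  · refine Subtype.ext ?_
    exact ZMod.val_cast_of_lt (Finset.mem_range.1 (Finset.mem_filter.1 j.2).1)
  · exact Subtype.ext (ZMod.natCast_zmod_val _)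

open Classical in
theorem local_id (p : ℕ) (hp : p.Prime) (Q : QF) (n : ℝ) (x y : ℤ) (hA : ¬ (p : ℤ) ∣ Q.1)
    (hn : n = 1 + ((Finset.range p).filter
      (fun j : ℕ => ¬ (p : ℤ) ∣ val Q ((j : ℤ), 1))).card) :
    (if (p : ℤ) ∣ val Q (x, y) then 0 else (if (p : ℤ) ∣ y then 1 else 0) - 1 / n) =
      -(1 / n) * (cn p Q x y : ℝ) + (if (p : ℤ) ∣ y then (1 - 1 / n) else 0) := by
  haveI : Fact p.Prime := ⟨hp⟩
  rw [npc p hp.ne_zero Q] at hn
  rw [cn_eq p hp.ne_zero]
  have hn0 : n ≠ 0 := by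
    rw [hn]
    positivity
  have hA' : ((Q.1 : ℤ) : ZMod p) ≠ 0 := by
    rwa [Ne, ZMod.intCast_zmod_eq_zero_iff_dvd]
  have hv : ((p : ℤ) ∣ val Q (x, y)) ↔
      (Q.1 : ZMod p) * (x : ZMod p) ^ 2 + (Q.2.1 : ZMod p) * (x : ZMod p) * (y : ZMod p) +
        (Q.2.2 : ZMod p) * (y : ZMod p) ^ 2 = 0 := by
    rw [← ZMod.intCast_zmod_eq_zero_iff_dvd]
    unfold val
    push_cast
    rfl
  have hy : ((p : ℤ) ∣ y) ↔ (y : ZMod p) = 0 := (ZMod.intCast_zmod_eq_zero_iff_dvd _ _).symm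
  by_cases h1 : (y : ZMod p) = 0
  · rw [if_pos (hy.2 h1), if_pos (hy.2 h1)]
    by_cases h2 : (x : ZMod p) = 0
    · rw [if_pos (hv.2 (by rw [h1, h2]; ring))]
      have h3 : Nat.card (CT p Q x y) = Nat.card {z : ZMod p // ¬ qz (ZMod p) Q z = 0} := by
        refine Nat.card_congr (Equiv.subtypeEquivRight fun z => ?_)
        rw [h1, h2, isUnit_iff_ne_zero]
        simp
      rw [h3]
      have h4 : ((Nat.card {z : ZMod p // ¬ qz (ZMod p) Q z = 0} : ℕ) : ℝ) = n - 1 := by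
        rw [hn]
        ring
      rw [h4]
      field_simp
      ring
    · rw [if_neg (by
        rw [hv, h1]
        intro h3
        have h4 : (Q.1 : ZMod p) * (x : ZMod p) ^ 2 = 0 := by linear_combination h3
        rcases mul_eq_zero.1 h4 with h5 | h5
        · exact hA' h5
        · exact h2 (pow_eq_zero_iff (two_ne_zero) |>.1 h5))]
      have h3 : Nat.card (CT p Q x y) = 0 := by
        haveI : IsEmpty (CT p Q x y) := ⟨fun ⟨z, _, h4⟩ => by
          apply h2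
          linear_combination h4 + z * h1⟩
        exact Nat.card_of_isEmpty
      rw [h3]
      push_cast
      ring
  · rw [if_neg (fun h => h1 (hy.1 h)), if_neg (fun h => h1 (hy.1 h))]
    set z0 : ZMod p := (x : ZMod p) / (y : ZMod p) with hz0
    have hxz : (x : ZMod p) = z0 * (y : ZMod p) := by
      rw [hz0]
      field_simp
    have h4 : (Q.1 : ZMod p) * (x : ZMod p) ^ 2 + (Q.2.1 : ZMod p) * (x : ZMod p) *
        (y : ZMod p) + (Q.2.2 : ZMod p) * (y : ZMod p) ^ 2 =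
        (y : ZMod p) ^ 2 * qz (ZMod p) Q z0 := by
      rw [hxz]
      unfold qz
      ring
    have h5 : ((p : ℤ) ∣ val Q (x, y)) ↔ qz (ZMod p) Q z0 = 0 := by
      rw [hv, h4, mul_eq_zero]
      constructor
      · rintro (h6 | h6)
        · exact absurd (pow_eq_zero_iff (two_ne_zero) |>.1 h6) h1
        · exact h6
      · exact fun h6 => Or.inr h6
    have h6 : ∀ z : ZMod p, (x : ZMod p) - z * (y : ZMod p) = 0 → z = z0 := by
      intro z h7
      rw [hz0, eq_div_iff h1]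
      linear_combination -h7
    by_cases h7 : qz (ZMod p) Q z0 = 0
    · rw [if_pos (h5.2 h7)]
      have h8 : Nat.card (CT p Q x y) = 0 := by
        haveI : IsEmpty (CT p Q x y) := ⟨fun ⟨z, h9, h10⟩ => by
          rw [h6 z h10, h7] at h9
          exact not_isUnit_zero h9⟩
        exact Nat.card_of_isEmpty
      rw [h8]
      push_cast
      ring
    · rw [if_neg (fun h => h7 (h5.1 h))]
      have h8 : Nat.card (CT p Q x y) = 1 := by
        rw [Nat.card_eq_one_iff_unique]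
        refine ⟨⟨fun ⟨a, _, ha⟩ ⟨b, _, hb⟩ => Subtype.ext ((h6 a ha).trans (h6 b hb).symm)⟩,
          ⟨⟨z0, ?_, ?_⟩⟩⟩
        · exact isUnit_iff_ne_zero.2 h7
        · rw [hxz]
          ring
      rw [h8]
      push_cast
      ring

theorem sum_sf {g : ℕ} (hg : Squarefree g) (F : Finset ℕ → ℝ) :
    ∑ t ∈ g.primeFactors.powerset, F t = ∑ d ∈ g.divisors, F d.primeFactors := by
  refine Finset.sum_nbij' (fun t => ∏ p ∈ t, p) (fun d => d.primeFactors) ?_ ?_ ?_ ?_ ?_
  · intro t ht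
    rw [Finset.mem_powerset] at ht
    rw [Nat.mem_divisors]
    refine ⟨?_, hg.ne_zero⟩
    conv_rhs => rw [← Nat.prod_primeFactors_of_squarefree hg]
    exact Finset.prod_dvd_prod_of_subset _ _ _ ht
  · intro d hd
    rw [Finset.mem_powerset]
    exact Nat.primeFactors_mono (Nat.dvd_of_mem_divisors hd) hg.ne_zero
  · intro t ht
    rw [Finset.mem_powerset] at ht
    exact Nat.primeFactors_prod fun p hp => Nat.prime_of_mem_primeFactors (ht hp)
  · intro d hd
    exact Nat.prod_primeFactors_of_squarefree (hg.squarefree_of_dvd (Nat.dvd_of_mem_divisors hd))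
  · intro t ht
    rw [Finset.mem_powerset] at ht
    rw [Nat.primeFactors_prod fun p hp => Nat.prime_of_mem_primeFactors (ht hp)]

theorem sdiff_pf {g d : ℕ} (hg : Squarefree g) (hd : d ∣ g) :
    g.primeFactors \ d.primeFactors = (g / d).primeFactors := by
  obtain ⟨e, rfl⟩ := hd
  have hd0 : 0 < d := Nat.pos_of_ne_zero fun h => hg.ne_zero (by rw [h, zero_mul])
  rw [Nat.mul_div_cancel_left e hd0]
  have hc : d.Coprime e := Nat.coprime_of_squarefree_mul hg
  rw [hc.primeFactors_mul, Finset.union_sdiff_left]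
  exact Finset.sdiff_eq_self_of_disjoint hc.disjoint_primeFactors.symm

theorem dvd_sf {e : ℕ} (he : Squarefree e) (y : ℤ) :
    (∀ p ∈ e.primeFactors, (p : ℤ) ∣ y) ↔ (e : ℤ) ∣ y := by
  constructor
  · intro h
    have h1 : ((∏ p ∈ e.primeFactors, p : ℕ) : ℤ) ∣ y := by
      push_cast
      refine Finset.prod_dvd_of_coprime ?_ h
      intro p hp q hq hpq
      simp only [Function.onFun]
      rw [Nat.isCoprime_iff_coprime]
      exact (Nat.coprime_primes (Nat.prime_of_mem_primeFactors hp)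
        (Nat.prime_of_mem_primeFactors hq)).2 hpq
    rwa [Nat.prod_primeFactors_of_squarefree he] at h1
  · intro h p hp
    exact (Int.natCast_dvd_natCast.2 (Nat.dvd_of_mem_primeFactors hp)).trans h

end Pool.Agent.H72.CFH.KPR

namespace Pool.Agent.H72.CFH

open Pool.Agent.H31.CN Pool.Agent.H65.AD Pool.Agent.H91.CF Pool.Agent.H65.CF

theorem pf_KPR : T_KPR := by
  classical
  intro g Q n x y hg hA hn
  have h1 : ∀ p ∈ g.primeFactors, (if (p : ℤ) ∣ val Q (x, y) then 0 else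
        (if (p : ℤ) ∣ y then 1 else 0) - 1 / n p) =
      -(1 / n p) * (KPR.cn p Q x y : ℝ) + (if (p : ℤ) ∣ y then (1 - 1 / n p) else 0) := by
    intro p hp
    have hpp := Nat.prime_of_mem_primeFactors hp
    refine KPR.local_id p hpp Q (n p) x y ?_ (hn p hp)
    intro h2
    have h3 : IsCoprime (p : ℤ) (g : ℤ) := IsCoprime.of_isCoprime_of_dvd_left hA h2
    rw [Nat.isCoprime_iff_coprime] at h3
    have h4 := Nat.Coprime.eq_one_of_dvd h3 (Nat.dvd_of_mem_primeFactors hp)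
    exact hpp.one_lt.ne' h4
  rw [Finset.prod_congr rfl h1, Finset.prod_add]
  rw [KPR.sum_sf hg (fun t => (∏ p ∈ t, -(1 / n p) * (KPR.cn p Q x y : ℝ)) *
    ∏ p ∈ g.primeFactors \ t, (if (p : ℤ) ∣ y then (1 - 1 / n p) else 0))]
  refine Finset.sum_congr rfl fun d hd => ?_
  have hdg := Nat.dvd_of_mem_divisors hd
  have hds : Squarefree d := hg.squarefree_of_dvd hdg
  have hes : Squarefree (g / d) := hg.squarefree_of_dvd (Nat.div_dvd_of_dvd hdg)
  have h2 : ∏ p ∈ d.primeFactors, (KPR.cn p Q x y : ℝ) = (KPR.cn d Q x y : ℝ) := by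
    rw [← Nat.cast_prod, ← KPR.cn_prod _ fun p hp => Nat.prime_of_mem_primeFactors hp,
      Nat.prod_primeFactors_of_squarefree hds]
  rw [KPR.sdiff_pf hg hdg, Finset.prod_mul_distrib, h2, Finset.prod_ite_zero]
  have h3 : (∀ p ∈ (g / d).primeFactors, (p : ℤ) ∣ y) ↔ ((g / d : ℕ) : ℤ) ∣ y :=
    KPR.dvd_sf hes y
  by_cases h4 : ((g / d : ℕ) : ℤ) ∣ y
  · rw [if_pos (h3.2 h4), if_pos h4]
    unfold KPR.cn
    ring
  · rw [if_neg (fun h => h4 (h3.1 h)), if_neg h4]
    ring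

end Pool.Agent.H72.CFH
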