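import Pool.Agent.H65.CF.T7
import Pool.Agent.H51.CN.PZ2

/-!
# The Kronecker symbol is completely multiplicative and bounded (MP_347b49_nt, row CHM)
-/

set_option autoImplicit false

namespace Pool.Agent.H72.CFH

open Pool.Agent.H31.CN Pool.Agent.H65.AD Pool.Agent.H65.CF

theorem nrt_two {p : ℕ} (hp : p.Prime) (D : ℤ) : nrt p 1 0 D ≤ 2 := by
  classical
  haveI : Fact p.Prime := ⟨hp⟩
  rw [Pool.Agent.H51.CN.nrt_eq p hp.ne_zero]
  by_cases h : Nonempty (Pool.Agent.H51.CN.RT p 1 0 D)
  · obtain ⟨x0⟩ := h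
    have hinj : Function.Injective (fun y : Pool.Agent.H51.CN.RT p 1 0 D =>
        (decide (y.1 = x0.1) : Bool)) := by
      intro y z hyz
      have key : ∀ w : Pool.Agent.H51.CN.RT p 1 0 D, w.1 = x0.1 ∨ w.1 = -x0.1 := by
        intro w
        have hw := w.2
        have hx := x0.2
        apply sq_eq_sq_iff_eq_or_eq_neg.1
        push_cast at hw hx
        linear_combination hw - hx
      simp only [decide_eq_decide] at hyz
      apply Subtype.ext
      by_cases h1 : y.1 = x0.1
      · rw [h1, hyz.1 h1]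
      · have h2 : z.1 ≠ x0.1 := fun h3 => h1 (hyz.2 h3)
        rcases key y with h3 | h3
        · exact absurd h3 h1
        · rcases key z with h4 | h4
          · exact absurd h4 h2
          · rw [h3, h4]
    have h5 := Nat.card_le_card_of_injective _ hinj
    have h6 : Nat.card Bool = 2 := by simp
    omega
  · rw [not_nonempty_iff] at h
    rw [Nat.card_of_isEmpty]
    omega

theorem ch_abs {p : ℕ} (hp : p.Prime) (D : ℕ) : |((ch p D : ℤ) : ℝ)| ≤ 1 := by
  unfold ch
  split_ifs
  · simp
  · simp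
  · simp
  · have h1 := nrt_two hp (D : ℤ)
    have h2 : ((nrt p 1 0 (D : ℤ) : ℕ) : ℝ) ≤ 2 := by exact_mod_cast h1
    have h3 : (0 : ℝ) ≤ ((nrt p 1 0 (D : ℤ) : ℕ) : ℝ) := Nat.cast_nonneg _
    push_cast
    rw [abs_le]
    constructor <;> linarith

theorem chm_eq (m D : ℕ) :
    chm m D = m.factorization.prod fun p k => ((ch p D : ℤ) : ℝ) ^ k := by
  unfold chm Finsupp.prod
  rw [Nat.support_factorization]

theorem chm_abs (m D : ℕ) : |chm m D| ≤ 1 := by
  unfold chm
  rw [Finset.abs_prod]
  refine Finset.prod_le_one (fun p _ => abs_nonneg _) fun p hp => ?_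
  rw [abs_pow]
  exact pow_le_one₀ (abs_nonneg _) (ch_abs (Nat.prime_of_mem_primeFactors hp) D)

theorem pf_CHM : T_CHM := by
  refine ⟨fun D => by simp [chm], chm_abs, fun m n D hm hn => ?_, fun r D hr hs => ?_,
    fun n D => ?_⟩
  · rw [chm_eq, chm_eq, chm_eq, Nat.factorization_mul hm hn]
    exact Finsupp.prod_add_index' (fun a => pow_zero _) fun a b₁ b₂ => pow_add _ _ _
  · unfold chm xD
    refine Finset.prod_congr rfl fun p hp => ?_
    have hpp := Nat.prime_of_mem_primeFactors hp
    have hpd := Nat.dvd_of_mem_primeFactors hp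
    have h1 : r.factorization p = 1 := by
      have h2 := hs.natFactorization_le_one p
      have h3 := hpp.factorization_pos_of_dvd hs.ne_zero hpd
      omega
    have h4 : p ≠ 2 := by
      rintro rfl
      have := Nat.not_even_iff_odd.2 hr
      exact this (even_iff_two_dvd.2 hpd)
    rw [h1, pow_one]
    unfold ch chi
    rw [if_neg h4, if_neg h4]
  · unfold aD
    calc |∑ m ∈ n.divisors, chm m D| ≤ ∑ m ∈ n.divisors, |chm m D| :=
          Finset.abs_sum_le_sum_abs _ _
      _ ≤ ∑ _m ∈ n.divisors, (1 : ℝ) := Finset.sum_le_sum fun m _ => chm_abs m D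
      _ = n.divisors.card := by simp

end Pool.Agent.H72.CFH
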