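import Pool.Agent.H65.CF.T7

/-!
# The kernel (MP_347b49_nt, row GQB)
-/

set_option autoImplicit false

open Set
open scoped Real

namespace Pool.Agent.H72.CFH

open Pool.Agent.H65.CF

theorem den_ge {x : ℝ} (hx : 0 < x) : x * Real.exp (x / 2) ≤ Real.exp x - 1 := by
  have h1 : x / 2 ≤ Real.sinh (x / 2) := Real.self_le_sinh_iff.2 (by linarith)
  rw [Real.sinh_eq] at h1
  have h2 : Real.exp x = Real.exp (x / 2) * Real.exp (x / 2) := by
    rw [← Real.exp_add]
    congr 1
    ring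
  have h3 : Real.exp (x / 2) * Real.exp (-(x / 2)) = 1 := by
    rw [← Real.exp_add]
    simp
  have h4 : x ≤ Real.exp (x / 2) - Real.exp (-(x / 2)) := by linarith
  have h5 := mul_le_mul_of_nonneg_left h4 (Real.exp_pos (x / 2)).le
  have h6 : Real.exp (x / 2) * (Real.exp (x / 2) - Real.exp (-(x / 2))) = Real.exp x - 1 := by
    rw [mul_sub, h3, ← h2]
  linarith

theorem den_ge' {x : ℝ} (hx : 0 < x) : x ≤ Real.exp x - 1 := by
  have := Real.add_one_le_exp x
  linarith

/-- the derivative as a function of `x = 2 π u` -/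
noncomputable def kf (x : ℝ) : ℝ :=
  x * (Real.exp x - 1 - x * Real.exp x) / (Real.exp x - 1) ^ 2

theorem gq_deriv {u : ℝ} (hu : 0 < u) : HasDerivAt gq (kf (2 * π * u) / u) u := by
  have hx : 0 < 2 * π * u := by positivity
  have hd : 0 < Real.exp (2 * π * u) - 1 := lt_of_lt_of_le hx (den_ge' hx)
  have h1 : HasDerivAt (fun u : ℝ => 2 * π * u) (2 * π) u := by
    simpa using (hasDerivAt_id u).const_mul (2 * π)
  have h2 : HasDerivAt (fun u : ℝ => Real.exp (2 * π * u) - 1)
      (Real.exp (2 * π * u) * (2 * π)) u := h1.exp.sub_const 1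
  have h3 := h1.div h2 hd.ne'
  have h4 : (2 * π * (Real.exp (2 * π * u) - 1) - 2 * π * u * (Real.exp (2 * π * u) * (2 * π))) /
      (Real.exp (2 * π * u) - 1) ^ 2 = kf (2 * π * u) / u := by
    unfold kf
    field_simp
  rw [h4] at h3
  exact h3

theorem gq1_eq {u : ℝ} (hu : 0 < u) : gq1 u = kf (2 * π * u) := by
  unfold gq1
  rw [(gq_deriv hu).deriv]
  field_simp

theorem F_le {x : ℝ} (hx : 0 < x) : x / (Real.exp x - 1) ≤ Real.exp (-(x / 2)) := by
  have hd : 0 < Real.exp x - 1 := lt_of_lt_of_le hx (den_ge' hx)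
  rw [div_le_iff₀ hd, Real.exp_neg]
  have h1 := den_ge hx
  have h2 : 0 < Real.exp (x / 2) := Real.exp_pos _
  rw [inv_mul_eq_div, le_div_iff₀ h2]
  exact h1

theorem G_le {x : ℝ} (hx : 0 < x) :
    x ^ 2 * Real.exp x / (Real.exp x - 1) ^ 2 ≤ 64 * Real.exp (-(x / 2)) := by
  have hd : 0 < Real.exp x - 1 := lt_of_lt_of_le hx (den_ge' hx)
  have he : 0 < Real.exp (x / 2) := Real.exp_pos _
  have h2 : Real.exp x = Real.exp (x / 2) ^ 2 := by
    rw [← Real.exp_nat_mul]
    congr 1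
    push_cast
    ring
  rw [div_le_iff₀ (by positivity), Real.exp_neg]
  rcases le_total x 1 with h1 | h1
  · have h3 := den_ge hx
    have h4 : (x * Real.exp (x / 2)) ^ 2 ≤ (Real.exp x - 1) ^ 2 :=
      pow_le_pow_left₀ (by positivity) h3 2
    have h5 : Real.exp (x / 2) ≤ 64 := by
      have h6 : Real.exp (x / 2) ≤ Real.exp 1 := Real.exp_le_exp.2 (by linarith)
      have h7 := Real.exp_one_lt_d9
      linarith
    have h8 : 1 ≤ 64 * (Real.exp (x / 2))⁻¹ := by
      rw [← div_eq_mul_inv, le_div_iff₀ he]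
      linarith
    have h9 : 0 ≤ (Real.exp x - 1) ^ 2 := by positivity
    calc x ^ 2 * Real.exp x = (x * Real.exp (x / 2)) ^ 2 := by rw [h2]; ring
      _ ≤ 1 * (Real.exp x - 1) ^ 2 := by linarith
      _ ≤ 64 * (Real.exp (x / 2))⁻¹ * (Real.exp x - 1) ^ 2 :=
        mul_le_mul_of_nonneg_right h8 h9
  · have h3 : Real.exp x / 2 ≤ Real.exp x - 1 := by
      have h4 := Real.add_one_le_exp x
      linarith
    have h5 : (Real.exp x / 2) ^ 2 ≤ (Real.exp x - 1) ^ 2 :=
      pow_le_pow_left₀ (by positivity) h3 2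
    have h6 : x ^ 2 ≤ 16 * Real.exp (x / 2) := by
      have h7 : x / 4 ≤ Real.exp (x / 4) := by
        have := Real.add_one_le_exp (x / 4)
        linarith
      have h8 : (x / 4) ^ 2 ≤ Real.exp (x / 4) ^ 2 := pow_le_pow_left₀ (by positivity) h7 2
      have h9 : Real.exp (x / 4) ^ 2 = Real.exp (x / 2) := by
        rw [← Real.exp_nat_mul]
        congr 1
        push_cast
        ring
      rw [h9] at h8
      linarith
    have h10 : x ^ 2 * Real.exp x = x ^ 2 * Real.exp (x / 2) ^ 2 := by rw [h2]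
    have h11 : (64 : ℝ) * (Real.exp (x / 2))⁻¹ * (Real.exp x / 2) ^ 2 =
        16 * Real.exp (x / 2) * Real.exp (x / 2) ^ 2 := by
      rw [h2]
      field_simp
      ring
    calc x ^ 2 * Real.exp x = x ^ 2 * Real.exp (x / 2) ^ 2 := h10
      _ ≤ 16 * Real.exp (x / 2) * Real.exp (x / 2) ^ 2 := by gcongr
      _ = 64 * (Real.exp (x / 2))⁻¹ * (Real.exp x / 2) ^ 2 := h11.symm
      _ ≤ 64 * (Real.exp (x / 2))⁻¹ * (Real.exp x - 1) ^ 2 := by gcongr

theorem kf_le {x : ℝ} (hx : 0 < x) : |kf x| ≤ 65 * Real.exp (-(x / 2)) := by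
  have hd : 0 < Real.exp x - 1 := lt_of_lt_of_le hx (den_ge' hx)
  have h1 : kf x = x / (Real.exp x - 1) - x ^ 2 * Real.exp x / (Real.exp x - 1) ^ 2 := by
    unfold kf
    field_simp
  have h2 : 0 ≤ x / (Real.exp x - 1) := by positivity
  have h3 : 0 ≤ x ^ 2 * Real.exp x / (Real.exp x - 1) ^ 2 := by positivity
  have h4 := F_le hx
  have h5 := G_le hx
  have h6 := Real.exp_pos (-(x / 2))
  rw [h1, abs_le]
  constructor <;> linarith

theorem kf_le' {x : ℝ} (hx : 0 < x) : |kf x| ≤ 65 * x := by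
  rcases le_total x 1 with h1 | h1
  · have hd : 0 < Real.exp x - 1 := lt_of_lt_of_le hx (den_ge' hx)
    have hax : |x| ≤ 1 := by rw [abs_of_pos hx]; exact h1
    have h2 := Real.abs_exp_sub_one_sub_id_le hax
    have h3 := Real.abs_exp_sub_one_le hax
    rw [abs_of_pos hx] at h3
    have h4 : |Real.exp x - 1 - x * Real.exp x| ≤ 3 * x ^ 2 := by
      have h5 : Real.exp x - 1 - x * Real.exp x =
          (Real.exp x - 1 - x) - x * (Real.exp x - 1) := by ring
      rw [h5]
      calc |(Real.exp x - 1 - x) - x * (Real.exp x - 1)|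
          ≤ |Real.exp x - 1 - x| + |x * (Real.exp x - 1)| := abs_sub _ _
        _ ≤ x ^ 2 + x * (2 * x) := by
          rw [abs_mul, abs_of_pos hx]
          gcongr
        _ = 3 * x ^ 2 := by ring
    unfold kf
    rw [abs_div, abs_mul, abs_of_pos hx, abs_of_pos (show 0 < (Real.exp x - 1) ^ 2 by positivity),
      div_le_iff₀ (by positivity)]
    have h6 : x ^ 2 ≤ (Real.exp x - 1) ^ 2 := pow_le_pow_left₀ hx.le (den_ge' hx) 2
    calc x * |Real.exp x - 1 - x * Real.exp x| ≤ x * (3 * x ^ 2) := by gcongr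
      _ = 3 * x * x ^ 2 := by ring
      _ ≤ 65 * x * (Real.exp x - 1) ^ 2 := by gcongr; norm_num
  · have h2 := kf_le hx
    have h3 : Real.exp (-(x / 2)) ≤ 1 := Real.exp_le_one_iff.2 (by linarith)
    linarith

theorem F_sub {x : ℝ} (hx : 0 < x) : |x / (Real.exp x - 1) - 1| ≤ x := by
  have hd : 0 < Real.exp x - 1 := lt_of_lt_of_le hx (den_ge' hx)
  rcases le_total x 1 with h1 | h1
  · have hax : |x| ≤ 1 := by rw [abs_of_pos hx]; exact h1
    have h2 := Real.abs_exp_sub_one_sub_id_le hax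
    have h3 : x / (Real.exp x - 1) - 1 = -(Real.exp x - 1 - x) / (Real.exp x - 1) := by
      field_simp
      ring
    rw [h3, abs_div, abs_neg, abs_of_pos hd, div_le_iff₀ hd]
    have h4 := mul_le_mul_of_nonneg_left (den_ge' hx) hx.le
    calc |Real.exp x - 1 - x| ≤ x ^ 2 := h2
      _ = x * x := by ring
      _ ≤ x * (Real.exp x - 1) := h4
  · have h2 : 0 ≤ x / (Real.exp x - 1) := by positivity
    have h3 : x / (Real.exp x - 1) ≤ 1 := by
      rw [div_le_one hd]
      exact den_ge' hx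
    rw [abs_le]
    constructor <;> linarith

theorem kf_cont : ContinuousOn (fun u : ℝ => kf (2 * π * u)) (Ioi 0) := by
  unfold kf
  refine ContinuousOn.div (by fun_prop) (by fun_prop) fun u hu => ?_
  have hu0 : 0 < u := hu
  have hx : 0 < 2 * π * u := by positivity
  have hd : 0 < Real.exp (2 * π * u) - 1 := lt_of_lt_of_le hx (den_ge' hx)
  positivity

theorem pf_GQB : T_GQB := by
  refine ⟨kf_cont.congr fun u hu => gq1_eq hu, fun u hu => (gq_deriv hu).differentiableAt, 500,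
    by norm_num, fun u hu => ?_⟩
  have hx : 0 < 2 * π * u := by positivity
  have hd : 0 < Real.exp (2 * π * u) - 1 := lt_of_lt_of_le hx (den_ge' hx)
  have h3 : 3 < π := Real.pi_gt_three
  have h4 : π < 3.15 := Real.pi_lt_d2
  have he : Real.exp (-(2 * π * u / 2)) ≤ Real.exp (-u) := by
    apply Real.exp_le_exp.2
    nlinarith
  have he0 := Real.exp_pos (-u)
  have hxu : 2 * π * u ≤ 7 * u := by nlinarith
  refine ⟨?_, ?_, ?_, ?_⟩
  · have h5 : 0 ≤ gq u := by
      unfold gq
      positivity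
    rw [abs_of_nonneg h5]
    have h6 : gq u ≤ Real.exp (-(2 * π * u / 2)) := F_le hx
    linarith
  · rw [gq1_eq hu]
    have h6 := kf_le hx
    linarith
  · have h6 : |gq u - 1| ≤ 2 * π * u := F_sub hx
    linarith
  · rw [gq1_eq hu]
    have h6 := kf_le' hx
    linarith

end Pool.Agent.H72.CFH
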